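import Pool.Agent.W78.EC.Defs2
import Pool.Agent.W591.GA.Equ
import Pool.Agent.W240.GA.A0
import Pool.Agent.W45.GA.Lat
import Pool.Agent.W803.GA.Sect

/-!
Project EC (helper78), part D6: `S_ECNT` and `S_RESC`, the number of Farey edges.
-/

set_option autoImplicit false

namespace Pool.Agent.W899.EC

open Finset Filter Topology
open Pool.Agent.H376R2.MR
open Pool.Agent.W78.GA
open Pool.Agent.W78.EC

lemma hD : (0 : ℤ) ^ 2 < 4 * 1 := by norm_num

lemma equ01 : S_EQU 0 1 := Pool.Agent.W591.GA.equ_of hD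

lemma edge_subset (Y : ℝ) : edge 0 1 Y ⊆ dedge 0 1 Y := by
  classical
  intro e he
  unfold edge at he
  unfold dedge
  rw [mem_filter] at he ⊢
  exact ⟨he.1, he.2.1⟩

/-- every primitive vector is the first member of an edge -/
lemma exists_edge {Y : ℝ} {v : Gi} (hv : v ∈ pball 0 1 Y) : ∃ e ∈ edge 0 1 Y, e.1 = v := by
  classical
  obtain ⟨hp, hn⟩ := (mem_pball hD).1 hv
  obtain ⟨u₀, hu₀⟩ := Pool.Agent.W803.GA.exists_dt_one hp
  have hn1 : (1 : ℤ) ≤ (nm v : ℤ) := by
    exact_mod_cast (one_le_nm hD).2 (prim_ne_zero hp)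
  have hn1R : (1 : ℝ) ≤ (nm v : ℝ) := by exact_mod_cast hn1
  set n : ℤ := (nm v : ℤ) with hndef
  set i : ℤ := ip v u₀ with hi
  have hnR : ((n : ℤ) : ℝ) = (nm v : ℝ) := by rw [hndef]; norm_cast
  have hdt : ∀ k : ℤ, dt v (u₀ + (k : Gi) * v) = 1 := by
    intro k
    have : dt v (u₀ + (k : Gi) * v) = dt v u₀ := by unfold dt; simp; ring
    rw [this, hu₀]
  have hnm : ∀ k : ℤ, n * (nm (u₀ + (k : Gi) * v) : ℤ) = (i + k * n) ^ 2 + 1 := by
    intro k
    have h1 := ip_dt hD v (u₀ + (k : Gi) * v)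
    rw [hdt k] at h1
    have h2 : ip v (u₀ + (k : Gi) * v) = i + k * n := by
      rw [hi, hndef, nm_cast hD]
      unfold ip
      simp
      ring
    rw [h2] at h1
    rw [hndef, h1]
    ring
  have hnmR : ∀ k : ℤ, (nm v : ℝ) * (nm (u₀ + (k : Gi) * v) : ℝ) = ((i + k * n : ℤ) : ℝ) ^ 2 + 1 := by
    intro k
    have := hnm k
    rw [← hnR]
    exact_mod_cast this
  obtain ⟨k, hk, hmax⟩ := Int.exists_greatest_of_bdd
    (P := fun k : ℤ => (nm (u₀ + (k : Gi) * v) : ℝ) ≤ Y) (by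
      refine ⟨⌈Y * nm v + |(i : ℝ)|⌉, fun k hk => ?_⟩
      have h1 := hnmR k
      have h2 : ((i + k * n : ℤ) : ℝ) ^ 2 + 1 ≤ Y * nm v := by
        rw [← h1, mul_comm]
        exact mul_le_mul_of_nonneg_right hk (by linarith)
      have h3 : ((i + k * n : ℤ) : ℝ) ≤ Y * nm v := by
        nlinarith [sq_nonneg (((i + k * n : ℤ) : ℝ) - 1)]
      push_cast at h3
      rw [hnR] at h3
      have h4 : (k : ℝ) ≤ Y * nm v + |(i : ℝ)| := by
        rcases le_or_gt (k : ℝ) 0 with h | h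
        · have : (0 : ℝ) ≤ Y * nm v := by
            have := sq_nonneg (((i + k * n : ℤ) : ℝ))
            linarith
          linarith [abs_nonneg (i : ℝ)]
        · have : (k : ℝ) ≤ k * nm v := by nlinarith
          have h5 := neg_abs_le (i : ℝ)
          linarith
      have h6 := h4.trans (Int.le_ceil _)
      exact_mod_cast h6) (by
      refine ⟨-(i / n), ?_⟩
      have h1 := hnm (-(i / n))
      have h2 : i + -(i / n) * n = i % n := by
        have := Int.emod_add_mul_ediv i n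
        linarith
      rw [h2] at h1
      have h3 : 0 ≤ i % n := Int.emod_nonneg _ (by omega)
      have h4 : i % n < n := Int.emod_lt_of_pos _ (by omega)
      have h5 : (nm (u₀ + ((-(i / n) : ℤ) : Gi) * v) : ℤ) ≤ n := by
        by_contra hlt
        push Not at hlt
        nlinarith
      have h6 : (nm (u₀ + ((-(i / n) : ℤ) : Gi) * v) : ℝ) ≤ (n : ℝ) := by exact_mod_cast h5
      rw [hnR] at h6
      exact h6.trans hn)
  refine ⟨(v, u₀ + (k : Gi) * v), ?_, rfl⟩
  unfold edge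
  rw [mem_filter, mem_product]
  refine ⟨⟨hv, (mem_pball hD).2 ⟨Pool.Agent.W803.GA.prim_of_dt (hdt k), hk⟩⟩, hdt k, ?_⟩
  by_contra hlt
  push Not at hlt
  have e : v + (u₀ + (k : Gi) * v) = u₀ + ((k + 1 : ℤ) : Gi) * v := by push_cast; ring
  simp only at hlt
  rw [e] at hlt
  have := hmax (k + 1) hlt
  omega

lemma pball_le_edge (Y : ℝ) : (pball 0 1 Y).card ≤ (edge 0 1 Y).card := by
  classical
  have h : pball 0 1 Y ⊆ (edge 0 1 Y).image Prod.fst := by
    intro v hv
    obtain ⟨e, he, hev⟩ := exists_edge hv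
    exact mem_image.2 ⟨e, he, hev⟩
  exact (card_le_card h).trans card_image_le

lemma pball_lower : ∃ c Y₀ : ℝ, 0 < c ∧ ∀ Y : ℝ, Y₀ ≤ Y → c * Y ≤ ((pball 0 1 Y).card : ℝ) := by
  obtain ⟨c₀, hc₀, Y₀, hY₀⟩ := Pool.Agent.W240.GA.A0.a0_of hD (Pool.Agent.W45.GA.lat hD)
  have he := Real.exp_pos 1
  refine ⟨c₀ / Real.exp 1 ^ 2, max 1 (Real.exp 1 * Y₀), by positivity, ?_⟩
  intro Y hY
  have hY1 : 1 ≤ Y := (le_max_left _ _).trans hY
  have hYY : Real.exp 1 * Y₀ ≤ Y := (le_max_right _ _).trans hY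
  have h1 := hY₀ (Y / Real.exp 1) (by rw [le_div_iff₀ he]; linarith)
  rw [mul_div_cancel₀ Y he.ne'] at h1
  have h2 : ∀ z ∈ pball 0 1 Y, bg (Y / Real.exp 1) z ≤ Real.exp 1 ^ 2 / Y := by
    intro z hz
    obtain ⟨hp, hn⟩ := (mem_pball hD).1 hz
    have hn0 : (0 : ℝ) < nm z := nm_posR hD (prim_ne_zero hp)
    unfold bg
    rcases eq_or_lt_of_le (Pool.Agent.W240.GA.A0.w_nonneg
      (Real.log (nm z) - Real.log (Y / Real.exp 1))) with h | h
    · rw [← h]
      simp
      positivity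
    · have h3 : |Real.log (nm z) - Real.log (Y / Real.exp 1)| < 1 := by
        by_contra hge
        push Not at hge
        unfold w at h
        rw [max_eq_left (by linarith)] at h
        exact lt_irrefl _ h
      rw [Real.log_div (by positivity) he.ne', Real.log_exp, abs_lt] at h3
      have h4 : Real.log Y - 2 ≤ Real.log (nm z) := by linarith [h3.1]
      have h5 : Y / Real.exp 1 ^ 2 ≤ nm z := by
        have h6 : Real.log (Y / Real.exp 1 ^ 2) = Real.log Y - 2 := by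
          rw [Real.log_div (by positivity) (by positivity), Real.log_pow, Real.log_exp]
          norm_num
        rw [← h6] at h4
        exact (Real.log_le_log_iff (by positivity) hn0).1 h4
      have h7 := Pool.Agent.W240.GA.A0.w_le_one (Real.log (nm z) - Real.log (Y / Real.exp 1))
      rw [div_le_div_iff₀ hn0 (by positivity)]
      rw [div_le_iff₀ (by positivity)] at h5
      nlinarith
  have h3 : c₀ ≤ ((pball 0 1 Y).card : ℝ) * (Real.exp 1 ^ 2 / Y) := by
    refine h1.trans ?_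
    rw [← nsmul_eq_mul]
    exact Finset.sum_le_card_nsmul _ _ _ h2
  rw [mul_div_assoc', le_div_iff₀ (by positivity)] at h3
  rw [div_mul_eq_mul_div, div_le_iff₀ (by positivity)]
  exact h3

/-- ECNT -/
theorem ecnt : S_ECNT := by
  classical
  obtain ⟨c, Y₀, hc, hlow⟩ := pball_lower
  obtain ⟨C, hC, hE⟩ := equ01
  obtain ⟨X₀, hX₀⟩ := hE 0
  refine ⟨c, C, max Y₀ X₀, hc, fun Y hY => ⟨?_, ?_⟩⟩
  · refine (hlow Y ((le_max_left _ _).trans hY)).trans ?_
    exact_mod_cast pball_le_edge Y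
  · have h := hX₀ Y 1 0 0 0 0 ((le_max_right _ _).trans hY) le_rfl (by simp)
    have e : (dedge 0 1 Y).filter (fun e => ((1 : ℕ) : ℤ) ∣ e.1.re - 0 ∧ ((1 : ℕ) : ℤ) ∣ e.1.im - 0 ∧
      ((1 : ℕ) : ℤ) ∣ e.2.re - 0 ∧ ((1 : ℕ) : ℤ) ∣ e.2.im - 0) = dedge 0 1 Y := by
      apply Finset.filter_true_of_mem
      intro e _
      simp
    rw [e] at h
    simp only [Nat.cast_one, one_pow, div_one] at h
    refine le_trans ?_ h
    exact_mod_cast card_le_card (edge_subset Y)

/-! ### Residues -/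

lemma rs_eq_iff {p : ℕ} (hp : 0 < p) {x y : ℤ} (h : rs p x = rs p y) : (p : ℤ) ∣ x - y := by
  unfold rs at h
  have hp' : (p : ℤ) ≠ 0 := by exact_mod_cast hp.ne'
  have h1 := Int.emod_nonneg x hp'
  have h2 := Int.emod_nonneg y hp'
  have h3 : x % (p : ℤ) = y % (p : ℤ) := by omega
  exact Int.ModEq.dvd (show y ≡ x [ZMOD p] from h3.symm)

lemma mem_SL {p : ℕ} {y : ℕ × ℕ × ℕ × ℕ} : y ∈ SL p ↔ (y.1 < p ∧ y.2.1 < p ∧ y.2.2.1 < p ∧
    y.2.2.2 < p) ∧ (p : ℤ) ∣ (y.1 : ℤ) * y.2.2.2 - y.2.1 * y.2.2.1 - 1 := by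
  unfold SL
  simp only [mem_filter, mem_product, mem_range]

lemma SL_pos {p : ℕ} (hp : p.Prime) : 0 < (SL p).card := by
  rw [card_pos]
  refine ⟨(1, 0, 0, 1), ?_⟩
  rw [mem_SL]
  have := hp.one_lt
  have h0 := hp.pos
  refine ⟨⟨by simpa using this, by simpa using h0, by simpa using h0, by simpa using this⟩, ?_⟩
  simp

lemma dvd_of_dvd_mul {p : ℕ} (hp : p.Prime) {a : ℕ} (ha : 0 < a) (hap : a < p) {d d' : ℕ}
    (hd : d < p) (hd' : d' < p) (h : (p : ℤ) ∣ (a : ℤ) * ((d : ℤ) - d')) : d = d' := by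
  have hp' : Prime (p : ℤ) := Nat.prime_iff_prime_int.1 hp
  rcases hp'.dvd_or_dvd h with h1 | h1
  · exfalso
    have := Nat.le_of_dvd ha (by exact_mod_cast h1)
    omega
  · have := Int.eq_zero_of_abs_lt_dvd h1 (by rw [abs_lt]; omega)
    omega

lemma SL_card_le {p : ℕ} (hp : p.Prime) : (SL p).card ≤ p ^ 3 := by
  have hcard : (range p ×ˢ range p ×ˢ range p).card = p ^ 3 := by
    rw [card_product, card_product, card_range]
    ring
  rw [← hcard]
  apply Finset.card_le_card_of_injOn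
    (fun y => if y.1 = 0 then (0, y.2.1, y.2.2.2) else (y.1, y.2.1, y.2.2.1))
  · intro y hy
    rw [mem_coe, mem_SL] at hy
    obtain ⟨⟨h1, h2, h3, h4⟩, -⟩ := hy
    simp only [coe_product, Set.mem_prod, mem_coe, mem_range]
    split_ifs
    · exact ⟨hp.pos, h2, h4⟩
    · exact ⟨h1, h2, h3⟩
  · intro y hy z hz hyz
    rw [mem_coe, mem_SL] at hy hz
    obtain ⟨a, b, c, d⟩ := y
    obtain ⟨a', b', c', d'⟩ := z
    simp only at hy hz hyz
    obtain ⟨⟨h1, h2, h3, h4⟩, h5⟩ := hy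
    obtain ⟨⟨h1', h2', h3', h4'⟩, h5'⟩ := hz
    by_cases ha : a = 0
    · by_cases ha' : a' = 0
      · subst ha
        subst ha'
        simp only [if_true, Prod.mk.injEq, true_and] at hyz
        obtain ⟨rfl, rfl⟩ := hyz
        have hb : 0 < b := by
          rcases Nat.eq_zero_or_pos b with hb | hb
          · exfalso
            subst hb
            simp only [Nat.cast_zero, zero_mul, sub_zero, zero_sub] at h5
            rw [dvd_neg] at h5
            have := Int.le_of_dvd one_pos h5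
            have := hp.one_lt
            omega
          · exact hb
        have h6 : (p : ℤ) ∣ (b : ℤ) * ((c : ℤ) - c') := by
          have := dvd_sub h5' h5
          have e : ((0 : ℕ) : ℤ) * (d : ℤ) - (b : ℤ) * c' - 1 - (((0 : ℕ) : ℤ) * (d : ℤ) - (b : ℤ) * c - 1) =
            (b : ℤ) * ((c : ℤ) - c') := by push_cast; ring
          rw [e] at this
          exact this
        have := dvd_of_dvd_mul hp hb h2 h3 h3' h6
        subst this
        rfl
      · exfalso
        rw [if_pos ha, if_neg ha'] at hyz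
        simp only [Prod.mk.injEq] at hyz
        exact ha' hyz.1.symm
    · by_cases ha' : a' = 0
      · exfalso
        rw [if_neg ha, if_pos ha'] at hyz
        simp only [Prod.mk.injEq] at hyz
        exact ha hyz.1
      · rw [if_neg ha, if_neg ha'] at hyz
        simp only [Prod.mk.injEq] at hyz
        obtain ⟨rfl, rfl, rfl⟩ := hyz
        have h6 : (p : ℤ) ∣ (a : ℤ) * ((d : ℤ) - d') := by
          have := dvd_sub h5 h5'
          have e : (a : ℤ) * (d : ℤ) - (b : ℤ) * c - 1 - ((a : ℤ) * (d' : ℤ) - (b : ℤ) * c - 1) =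
            (a : ℤ) * ((d : ℤ) - d') := by ring
          rw [e] at this
          exact this
        have := dvd_of_dvd_mul hp (Nat.pos_of_ne_zero ha) h1 h4 h4' h6
        subst this
        rfl

/-- RESC -/
theorem resc : S_RESC := by
  classical
  obtain ⟨C, hC, hE⟩ := equ01
  obtain ⟨X₀, hX₀⟩ := hE 1
  refine ⟨C, hC, fun P hP => ?_⟩
  set M : ℕ := ∏ p ∈ P, p with hM
  have hM1 : 1 ≤ M := by
    rw [hM]
    exact Nat.one_le_iff_ne_zero.2 (Finset.prod_ne_zero_iff.2 fun p hp => (hP p hp).ne_zero)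
  have hprod : ∏ p ∈ P, ((SL p).card : ℝ) ≤ (M : ℝ) ^ 3 := by
    rw [hM]
    push_cast
    rw [← Finset.prod_pow]
    apply Finset.prod_le_prod
    · intro p _
      exact Nat.cast_nonneg _
    · intro p hp
      exact_mod_cast SL_card_le (hP p hp)
  have hprod0 : 0 < ∏ p ∈ P, ((SL p).card : ℝ) := by
    apply Finset.prod_pos
    intro p hp
    exact_mod_cast SL_pos (hP p hp)
  refine ⟨max X₀ (Real.exp M), ?_⟩
  intro Y hY y
  have hYX : X₀ ≤ Y := (le_max_left _ _).trans hY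
  have hYM : Real.exp M ≤ Y := (le_max_right _ _).trans hY
  have hY0 : 0 < Y := lt_of_lt_of_le (Real.exp_pos _) hYM
  have hlog : (M : ℝ) ≤ Real.log Y ^ 1 := by
    rw [pow_one, Real.le_log_iff_exp_le hY0]
    exact hYM
  rcases Finset.eq_empty_or_nonempty ((edge 0 1 Y).filter (fun e => ∀ p ∈ P, res p e = y p))
    with h0 | ⟨e₀, he₀⟩
  · have h1 : (((edge 0 1 Y).filter (fun e => ∀ p ∈ P, res p e = y p)).card : ℝ) = 0 := by
      rw [h0, card_empty, Nat.cast_zero]
    have h2 : 0 ≤ C * Y / ∏ p ∈ P, ((SL p).card : ℝ) :=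
      div_nonneg (mul_nonneg hC.le hY0.le) hprod0.le
    exact h1.le.trans h2
  · have h := hX₀ Y M e₀.1.re e₀.1.im e₀.2.re e₀.2.im hYX hM1 hlog
    have hMM : C * Y / (M : ℝ) ^ 3 ≤ C * Y / ∏ p ∈ P, ((SL p).card : ℝ) := by
      apply div_le_div_of_nonneg_left (by positivity) hprod0 hprod
    refine le_trans ?_ (h.trans hMM)
    rw [mem_filter] at he₀
    have hsub : (edge 0 1 Y).filter (fun e => ∀ p ∈ P, res p e = y p) ⊆
        (dedge 0 1 Y).filter (fun e => (M : ℤ) ∣ e.1.re - e₀.1.re ∧ (M : ℤ) ∣ e.1.im - e₀.1.im ∧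
      (M : ℤ) ∣ e.2.re - e₀.2.re ∧ (M : ℤ) ∣ e.2.im - e₀.2.im) := by
      intro e he
      rw [mem_filter] at he ⊢
      refine ⟨edge_subset Y he.1, ?_⟩
      have hpp : ∀ p ∈ P, (p : ℤ) ∣ e.1.re - e₀.1.re ∧ (p : ℤ) ∣ e.1.im - e₀.1.im ∧
          (p : ℤ) ∣ e.2.re - e₀.2.re ∧ (p : ℤ) ∣ e.2.im - e₀.2.im := by
        intro p hp
        have h1 : res p e = res p e₀ := (he.2 p hp).trans (he₀.2 p hp).symm
        unfold res at h1
        simp only [Prod.mk.injEq] at h1
        have hp0 := (hP p hp).pos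
        exact ⟨rs_eq_iff hp0 h1.1, rs_eq_iff hp0 h1.2.1, rs_eq_iff hp0 h1.2.2.1,
          rs_eq_iff hp0 h1.2.2.2⟩
      have hdvd : ∀ x : ℤ, (∀ p ∈ P, (p : ℤ) ∣ x) → (M : ℤ) ∣ x := by
        intro x hx
        rw [Int.natCast_dvd]
        rw [hM]
        apply Finset.prod_primes_dvd
        · intro p hp
          exact (hP p hp).prime
        · intro p hp
          exact Int.natCast_dvd.1 (hx p hp)
      exact ⟨hdvd _ fun p hp => (hpp p hp).1, hdvd _ fun p hp => (hpp p hp).2.1,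
        hdvd _ fun p hp => (hpp p hp).2.2.1, hdvd _ fun p hp => (hpp p hp).2.2.2⟩
    exact_mod_cast card_le_card hsub

end Pool.Agent.W899.EC
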