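import Pool.Agent.W78.EC.Defs2
import Pool.Agent.Helper923.PNT

/-!
Project EC (helper78), part D6: `S_PCNT`, the number of primes `1 mod 4` in `(Q, 2Q]`.
-/

set_option autoImplicit false

namespace Pool.Agent.W899.EC

open Finset Filter Topology
open Pool.Agent.W78.EC

lemma mem_PQ {Q p : ℕ} : p ∈ PQ Q ↔ (Q < p ∧ p ≤ 2 * Q) ∧ p.Prime ∧ p % 4 = 1 := by
  unfold PQ
  rw [mem_filter, mem_Ioc]

lemma sum_log_le (Q : ℕ) : ∑ p ∈ PQ Q, Real.log p ≤ Real.log 4 * (2 * Q) := by
  have h := Chebyshev.theta_le_log4_mul_x (x := ((2 * Q : ℕ) : ℝ)) (Nat.cast_nonneg _)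
  unfold Chebyshev.theta at h
  rw [Nat.floor_natCast] at h
  push_cast at h
  refine le_trans ?_ h
  apply Finset.sum_le_sum_of_subset_of_nonneg
  · intro p hp
    rw [mem_PQ] at hp
    rw [mem_filter, mem_Ioc]
    exact ⟨⟨by omega, hp.1.2⟩, hp.2.1⟩
  · intro p hp _
    rw [mem_filter] at hp
    exact Real.log_nonneg (by exact_mod_cast hp.2.one_lt.le)

lemma res_sum_le (Q : ℕ) : ∑ k ∈ Icc 1 (2 * Q),
      ArithmeticFunction.vonMangoldt.residueClass (1 : ZMod 4) k -
    ∑ k ∈ Icc 1 Q, ArithmeticFunction.vonMangoldt.residueClass (1 : ZMod 4) k ≤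
    ∑ p ∈ PQ Q, Real.log p + (Chebyshev.psi ((2 * Q : ℕ) : ℝ) - Chebyshev.theta ((2 * Q : ℕ) : ℝ)) := by
  have e1 : ∑ k ∈ Icc 1 (2 * Q), ArithmeticFunction.vonMangoldt.residueClass (1 : ZMod 4) k -
    ∑ k ∈ Icc 1 Q, ArithmeticFunction.vonMangoldt.residueClass (1 : ZMod 4) k =
    ∑ k ∈ Ioc Q (2 * Q), ArithmeticFunction.vonMangoldt.residueClass (1 : ZMod 4) k := by
    have hd : Icc 1 (2 * Q) = Icc 1 Q ∪ Ioc Q (2 * Q) := by
      ext k
      simp only [mem_Icc, mem_union, mem_Ioc]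
      omega
    rw [hd, sum_union]
    · ring
    · rw [Finset.disjoint_left]
      intro k hk hk'
      rw [mem_Icc] at hk
      rw [mem_Ioc] at hk'
      omega
  have e2 : Chebyshev.psi ((2 * Q : ℕ) : ℝ) - Chebyshev.theta ((2 * Q : ℕ) : ℝ) =
      ∑ k ∈ Ioc 0 (2 * Q), (ArithmeticFunction.vonMangoldt k -
        if k.Prime then Real.log k else 0) := by
    unfold Chebyshev.psi Chebyshev.theta
    rw [Nat.floor_natCast, sum_sub_distrib, ← sum_filter]
  have hnn : ∀ k : ℕ, 0 ≤ ArithmeticFunction.vonMangoldt k - (if k.Prime then Real.log k else 0) := by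
    intro k
    split_ifs with hk
    · rw [ArithmeticFunction.vonMangoldt_apply_prime hk]; simp
    · simp [ArithmeticFunction.vonMangoldt_nonneg]
  have e3 : ∑ p ∈ PQ Q, Real.log p = ∑ k ∈ Ioc Q (2 * Q),
      if k.Prime ∧ k % 4 = 1 then Real.log k else 0 := by
    unfold PQ
    rw [sum_filter]
  rw [e1, e2, e3]
  have e4 : ∑ k ∈ Ioc Q (2 * Q), (ArithmeticFunction.vonMangoldt k -
        if k.Prime then Real.log k else 0) ≤ ∑ k ∈ Ioc 0 (2 * Q), (ArithmeticFunction.vonMangoldt k -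
        if k.Prime then Real.log k else 0) := by
    apply Finset.sum_le_sum_of_subset_of_nonneg
    · intro k hk
      rw [mem_Ioc] at hk ⊢
      omega
    · intro k _ _
      exact hnn k
  refine le_trans ?_ (add_le_add_right e4 _)
  rw [← sum_add_distrib]
  apply sum_le_sum
  intro k _
  by_cases hk : (k : ZMod 4) = 1
  · have h1 : ArithmeticFunction.vonMangoldt.residueClass (1 : ZMod 4) k =
        ArithmeticFunction.vonMangoldt k := by
      unfold ArithmeticFunction.vonMangoldt.residueClass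
      rw [Set.indicator_of_mem]
      exact hk
    have h2 : k % 4 = 1 := by
      have h3 : ((k : ℕ) : ZMod 4) = ((1 : ℕ) : ZMod 4) := by simpa using hk
      rw [ZMod.natCast_eq_natCast_iff] at h3
      exact h3
    rw [h1]
    by_cases hp : k.Prime
    · simp [hp, h2]
    · simp [hp]
  · have h1 : ArithmeticFunction.vonMangoldt.residueClass (1 : ZMod 4) k = 0 := by
      unfold ArithmeticFunction.vonMangoldt.residueClass
      rw [Set.indicator_of_notMem]
      exact hk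
    rw [h1]
    apply add_nonneg
    · split_ifs with hp
      · exact Real.log_nonneg (by exact_mod_cast hp.1.one_lt.le)
      · exact le_rfl
    · exact hnn k

/-- PCNT -/
theorem pcnt : S_PCNT := by
  have hpnt := Pool.Agent.Helper923.PNT.pnt_residueClass (q := 4) (a := 1) isUnit_one
  obtain ⟨C, hC⟩ := Chebyshev.psi_sub_theta_le_mul_sqrt
  have ht : ((Nat.totient 4 : ℕ) : ℝ)⁻¹ = 1 / 2 := by
    rw [show Nat.totient 4 = 2 by decide]; norm_num
  rw [ht] at hpnt
  have hev : ∀ᶠ x : ℝ in atTop, |(∑ k ∈ Finset.Icc 1 ⌊x⌋₊,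
      ArithmeticFunction.vonMangoldt.residueClass (1 : ZMod 4) k) / x - 1 / 2| < 1 / 24 := by
    have := hpnt.eventually (Metric.ball_mem_nhds (1 / 2 : ℝ) (show (0 : ℝ) < 1 / 24 by norm_num))
    filter_upwards [this] with x hx
    exact hx
  have hev2 : ∀ᶠ x : ℝ in atTop, |C| * Real.sqrt (2 * x) ≤ x / 8 := by
    filter_upwards [eventually_ge_atTop (64 * 2 * |C| ^ 2), eventually_ge_atTop 0] with x hx hx0
    refine (pow_le_pow_iff_left₀ (by positivity) (by positivity) two_ne_zero).1 ?_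
    rw [mul_pow, Real.sq_sqrt (by positivity)]
    nlinarith [sq_nonneg C]
  obtain ⟨x₁, hx₁⟩ := eventually_atTop.1 (hev.and hev2)
  have key : ∀ Q : ℕ, x₁ ≤ (Q : ℝ) → 2 ≤ Q → (1 / 4 : ℝ) * Q ≤ ∑ p ∈ PQ Q, Real.log p := by
    intro Q hQ hQ2
    have hQ0 : (0 : ℝ) < Q := by exact_mod_cast (by omega : 0 < Q)
    have h1 := (hx₁ Q hQ).1
    have h2 := (hx₁ ((2 * Q : ℕ) : ℝ) (by push_cast; linarith)).1
    have h3 := (hx₁ Q hQ).2
    rw [Nat.floor_natCast] at h1 h2
    rw [abs_lt] at h1 h2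
    have h4 := res_sum_le Q
    have h5 := hC ((2 * Q : ℕ) : ℝ)
    have h6 : C * Real.sqrt ((2 * Q : ℕ) : ℝ) ≤ |C| * Real.sqrt (2 * (Q : ℝ)) := by
      push_cast
      exact mul_le_mul_of_nonneg_right (le_abs_self C) (Real.sqrt_nonneg _)
    have h7 : (∑ k ∈ Icc 1 Q, ArithmeticFunction.vonMangoldt.residueClass (1 : ZMod 4) k) ≤
        (1 / 2 + 1 / 24) * Q := by
      have := h1.2
      rw [sub_lt_iff_lt_add, div_lt_iff₀ hQ0] at this
      linarith
    have h8 : (1 / 2 - 1 / 24) * (2 * Q : ℝ) ≤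
        (∑ k ∈ Icc 1 (2 * Q), ArithmeticFunction.vonMangoldt.residueClass (1 : ZMod 4) k) := by
      have := h2.1
      have h9 : (0 : ℝ) < ((2 * Q : ℕ) : ℝ) := by push_cast; linarith
      rw [lt_sub_iff_add_lt, lt_div_iff₀ h9] at this
      push_cast at this
      linarith
    linarith
  refine ⟨1 / 8, 4 * Real.log 4, by norm_num, max 2 ⌈x₁⌉₊, ?_⟩
  intro Q hQ
  have hQ2 : 2 ≤ Q := (le_max_left _ _).trans hQ
  have hQx : x₁ ≤ (Q : ℝ) := (Nat.le_ceil x₁).trans (by exact_mod_cast (le_max_right _ _).trans hQ)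
  have hQ0 : (0 : ℝ) < Q := by exact_mod_cast (by omega : 0 < Q)
  have hQ2' : (2 : ℝ) ≤ Q := by exact_mod_cast hQ2
  have hlogQ : 0 < Real.log Q := Real.log_pos (by linarith)
  have h1 := key Q hQx hQ2
  have h2 := sum_log_le Q
  have hlog4 : 0 < Real.log 4 := Real.log_pos (by norm_num)
  -- comparison of the sum and the cardinality
  have h3 : ((PQ Q).card : ℝ) * Real.log Q ≤ ∑ p ∈ PQ Q, Real.log p := by
    rw [← nsmul_eq_mul]
    apply Finset.card_nsmul_le_sum
    intro p hp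
    rw [mem_PQ] at hp
    apply Real.log_le_log hQ0
    exact_mod_cast hp.1.1.le
  have h4 : ∑ p ∈ PQ Q, Real.log p ≤ ((PQ Q).card : ℝ) * (2 * Real.log Q) := by
    rw [← nsmul_eq_mul]
    apply Finset.sum_le_card_nsmul
    intro p hp
    rw [mem_PQ] at hp
    have h5 : Real.log p ≤ Real.log (2 * Q) := by
      apply Real.log_le_log
      · exact_mod_cast hp.2.1.pos
      · exact_mod_cast hp.1.2
    have h6 : Real.log (2 * Q) = Real.log 2 + Real.log Q := Real.log_mul (by norm_num) hQ0.ne'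
    have h7 : Real.log 2 ≤ Real.log Q := Real.log_le_log (by norm_num) hQ2'
    linarith
  refine ⟨?_, ?_, by linarith, by linarith⟩
  · rw [div_le_iff₀ hlogQ]
    linarith
  · rw [le_div_iff₀ hlogQ]
    linarith

end Pool.Agent.W899.EC
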